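import Pool.Agent.X20.Tr.Use

/-!
# The `t`-multipartition functions at the integers `⌊α n ^ c⌋`

From Mathlib: `dimH E`: the Hausdorff dimension; `⌊x⌋₊`: the integer part; `Finset.Icc 1 N` and `Finset.Ioc 0 N`: the
integers from `1` to `N`; `Finset.range N`: the integers from `0` to `N - 1`.
-/

set_option autoImplicit false

namespace Pool.Agent.Results.MP_a3366f_nt.AlongDilatedPowers

open Finset Filter
open Pool.Agent.X20.Tr
open Pool.Agent.Y854.PS (ms xs)

/-- The number `p_t(n)` of the `t`-multipartitions of `n`: the coefficient of `q ^ n` in `1 / f_1 ^ t`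
(as in `S18007`). -/
def pt (t n : ℕ) : ℕ := ∑ x ∈ Finset.Nat.antidiagonalTuple t n, ∏ i, Fintype.card (Nat.Partition (x i))

open Classical in
/-- The integers `m` with the property `P` have the density `ρ`. -/
def HasDensity (P : ℕ → Prop) (ρ : ℝ) : Prop :=
  Tendsto (fun N : ℕ => (((range N).filter P).card : ℝ) / (N : ℝ)) atTop (nhds ρ)

open Classical in
/-- The integers `n ≥ 1` for which `⌊α n ^ c⌋` has the property `P` have the density `ρ`. -/
def HasDensityAlong (α c : ℝ) (P : ℕ → Prop) (ρ : ℝ) : Prop :=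
  Tendsto (fun N : ℕ => (((Icc 1 N).filter (fun n : ℕ => P ⌊α * (n : ℝ) ^ c⌋₊)).card : ℝ) / (N : ℝ)) atTop (nhds ρ)

open Classical in
/-- For every real `c > 1` there are `κ > 0` and a set `E` of real numbers of Hausdorff dimension at most `1 - κ`
such that for every real `α > 0` outside `E`:

* for ALL `t`, all moduli `q` and residues `r`, all progressions `A m + B` and every real `ρ`: the congruence
  `p_t(A m + B) ≡ r mod q` holds for a set of integers `m` of density `ρ` if and only if it holds with the density `ρ`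
  for the integers `m = ⌊α n ^ c⌋`, `n = 1, 2, …`. In particular (`A = 1`, `B = 0`, `q = 2`, `r = 1`, `ρ = 1 / 2`, `t`
  odd) Q1 is equivalent to the same question for the numbers `p_t(⌊α n ^ c⌋)`;
* (power saving) for all `A`, `B`, all large `N` and ALL `t, q, r ≤ N ^ κ` the number of the `n ≤ N` with
  `p_t(A ⌊α n ^ c⌋ + B) ≡ r mod q` is, up to `N ^ (1 - κ)`, the number of all `m ≤ α N ^ c` with
  `p_t(A m + B) ≡ r mod q`, counted with the weights `(1 / c) α ^ (-1 / c) m ^ (1 / c - 1)` (the density of the sequence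
  at `m`). -/
theorem result (c : ℝ) (hc : 1 < c) : ∃ κ : ℝ, 0 < κ ∧ κ < 1 ∧ ∃ E : Set ℝ, dimH E ≤ ENNReal.ofReal (1 - κ) ∧
    ∀ α : ℝ, 0 < α → α ∉ E →
      (∀ (t q r A B : ℕ) (ρ : ℝ), HasDensity (fun m => pt t (A * m + B) % q = r) ρ ↔
        HasDensityAlong α c (fun m => pt t (A * m + B) % q = r) ρ) ∧
      (∀ A B : ℕ, ∃ N₀ : ℕ, ∀ N : ℕ, N₀ ≤ N → ∀ t q r : ℕ, (t : ℝ) ≤ (N : ℝ) ^ κ → (q : ℝ) ≤ (N : ℝ) ^ κ →
        (r : ℝ) ≤ (N : ℝ) ^ κ →
        |(((Icc 1 N).filter (fun n : ℕ => pt t (A * ⌊α * (n : ℝ) ^ c⌋₊ + B) % q = r)).card : ℝ) -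
          ∑ m ∈ (Ioc 0 ⌊α * (N : ℝ) ^ c⌋₊).filter (fun m : ℕ => pt t (A * m + B) % q = r),
            1 / c * α ^ (-(1 / c)) * (m : ℝ) ^ (1 / c - 1)| ≤ (N : ℝ) ^ (1 - κ)) := by
  obtain ⟨κ, hκ0, hκ1, H⟩ := use c hc
  obtain ⟨E, hE, h⟩ := H (fun i s => {m | pt (Nat.unpair s).1 ((Nat.unpair i).1 * m + (Nat.unpair i).2) %
    (Nat.unpair (Nat.unpair s).2).1 = (Nat.unpair (Nat.unpair s).2).2}) Unit (fun _ => ∅)
  refine ⟨κ / 8, by positivity, by linarith, E, hE.trans (ENNReal.ofReal_le_ofReal (by linarith)),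
    fun α hα hαE => ?_⟩
  obtain ⟨h1, h2, _⟩ := h α hα hαE
  have key : ∀ (P : ℕ → Prop), Cmp c α κ (ind {m | P m}) → ∀ ρ : ℝ, HasDensity P ρ ↔ HasDensityAlong α c P ρ := by
    intro P hP ρ
    have h4 := nat_iff hc hα hκ0 hκ1 hP ρ
    unfold HasDensity HasDensityAlong
    rw [range_iff, h4]
    have e : (fun N : ℕ => (hit c α {m | P m} N : ℝ) / N) =
        fun N : ℕ => (((Icc 1 N).filter (fun n : ℕ => P ⌊α * (n : ℝ) ^ c⌋₊)).card : ℝ) / (N : ℝ) := by
      funext N
      rw [hit_form]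
    rw [e]
  refine ⟨fun t q r A B ρ => ?_, fun A B => ?_⟩
  · have h3 := h2 (Nat.pair A B) (Nat.pair t (Nat.pair q r))
    simp only [Nat.unpair_pair] at h3
    exact key _ h3 ρ
  · obtain ⟨N₁, _, h4⟩ := h1 (Nat.pair A B)
    obtain ⟨N₂, hN₂, h5⟩ := triple_le hκ0
    refine ⟨max N₁ N₂, fun N hN t q r ht hq hr => ?_⟩
    have hN1 : (1 : ℝ) ≤ N := by exact_mod_cast hN₂.trans ((le_max_right _ _).trans hN)
    have h6 := h4 N ((le_max_left _ _).trans hN) (Nat.pair t (Nat.pair q r))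
      (h5 N ((le_max_right _ _).trans hN) t q r ht hq hr)
    simp only [Nat.unpair_pair] at h6
    have h11 : (N : ℝ) ^ (1 - κ) ≤ (N : ℝ) ^ (1 - κ / 8) := Real.rpow_le_rpow_of_exponent_le hN1 (by linarith)
    have e1 := hit_form c α (fun m : ℕ => pt t (A * m + B) % q = r) N (dp := inferInstance)
    have e2 := wsum_form c α (fun m : ℕ => pt t (A * m + B) % q = r) N (dp := inferInstance)
    rw [e1, e2]
    exact h6.trans h11

end Pool.Agent.Results.MP_a3366f_nt.AlongDilatedPowers
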