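import Pool.Agent.Y627.PT.R2
import Pool.Agent.X1.NfaPat

set_option autoImplicit false

/-!
# Automata for the parities of the multipartition functions (MP_a3366f_nt)

For every nonzero linear combination modulo 2 of the multipartition numbers `p_t (n + i)`, `1 ≤ t ≤ T`,
`0 ≤ i ≤ L`, a nondeterministic automaton which accepts its first `N` values and no other word of length `N`
has at least `N exp (- B √ log N)` states, and an automaton with at most `N ^ (1 - δ)` states which accepts a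
word that differs from it in at most `a log N` places accepts at least `exp (a (log N) ^ 2)` words of length
`N`.  For odd `t` alone the constants do not depend on `t`.

The proof combines the starting results on linear patterns (all nonzero linear patterns take both values in
intervals `[A, C (A + L + 1)]`), which bound the lengths of periodic stretches, with a theorem on automata
(`X1.NfaConst`).
-/

namespace Pool.Agent.Results.MP_a3366f_nt.AutomataForCombinations

open Pool.Agent.X1.NfaPat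

/-- the number of `t`-multipartitions of `n`: the coefficient of `q ^ n` in `∏ 1 / (1 - q ^ i) ^ t` -/
def multipartitions (t n : ℕ) : ℕ :=
  ∑ x ∈ Finset.Nat.antidiagonalTuple t n, ∏ i, Fintype.card (Nat.Partition (x i))

/-- the linear combination `∑ c t i * p_(t+1) (n + i)` modulo 2 -/
def comb {T L : ℕ} (c : Fin T → Fin (L + 1) → ZMod 2) (n : ℕ) : ZMod 2 :=
  ∑ t : Fin T, ∑ i : Fin (L + 1), c t i * (multipartitions (t + 1) (n + i) : ZMod 2)

/-- the linear combination `∑ c i * p_t (n + i)` modulo 2 -/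
def combOne (t : ℕ) {L : ℕ} (c : Fin (L + 1) → ZMod 2) (n : ℕ) : ZMod 2 :=
  ∑ i : Fin (L + 1), c i * (multipartitions t (n + i) : ZMod 2)

/-- the word of the first `N` values of `z` -/
def word (z : ℕ → ZMod 2) (N : ℕ) : List (ZMod 2) := (List.range N).map z

/-- automata which accept only the first `N` values of `z` have at least `N exp (- B √ log N)` states -/
def ManyStates (B : ℝ) (z : ℕ → ZMod 2) : Prop :=
  ∀ (σ : Type) [Fintype σ] (M : NFA (ZMod 2) σ) (N : ℕ), 2 ≤ N → word z N ∈ M.accepts →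
    (∀ w ∈ M.accepts, w.length = N → w = word z N) →
    (N : ℝ) * Real.exp (-B * √(Real.log N)) ≤ Fintype.card σ

/-- automata with at most `N ^ (1 - δ)` states which accept a word close to the first `N` values of `z` accept
at least `exp (a (log N) ^ 2)` words of length `N` -/
def ManyWords (δ a : ℝ) (N₁ : ℕ) (z : ℕ → ZMod 2) : Prop :=
  ∀ (σ : Type) [Fintype σ] (M : NFA (ZMod 2) σ) (N : ℕ), N₁ ≤ N →
    (Fintype.card σ : ℝ) ≤ (N : ℝ) ^ (1 - δ) → ∀ d : ℕ → ZMod 2,
    (((Finset.range N).filter fun n => d n ≠ z n).card : ℝ) ≤ a * Real.log N → word d N ∈ M.accepts →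
    Real.exp (a * Real.log N ^ 2) ≤ ({w : List (ZMod 2) | w ∈ M.accepts ∧ w.length = N}.ncard : ℝ)

lemma pat_joint (T : ℕ) : ∃ C : ℕ,
    Pat (fun (t : Fin T) (n : ℕ) => (multipartitions (t + 1) n : ZMod 2)) C := by
  obtain ⟨C, hC⟩ := Pool.Agent.Y627.PT.joint T
  refine ⟨C, fun L c hc κ A => ?_⟩
  obtain ⟨n, h1, h2, h3⟩ := hC L c hc κ A
  refine ⟨n, h1, h2, ?_⟩
  rw [← h3]
  refine Finset.sum_congr rfl fun t _ => Finset.sum_congr rfl fun i _ => ?_
  rw [Pool.Agent.TH693.QQ.coeff_P_pow]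
  rfl

lemma pat_odd (t : ℕ) (ht : Odd t) :
    Pat (fun (_ : Unit) (n : ℕ) => (multipartitions t n : ZMod 2)) 128 := by
  intro L c hc κ A
  have hc' : c () ≠ 0 := by
    intro h
    apply hc
    funext u
    rw [show u = () from rfl, h]
    rfl
  obtain ⟨n, h1, h2, h3⟩ := Pool.Agent.TH693.PP.takes (by norm_num) (Pool.Agent.TH693.PP.bd_odd ht)
    L (c ()) hc' κ A
  refine ⟨n, h1, by omega, ?_⟩
  rw [← h3, Fintype.sum_unique]
  refine Finset.sum_congr rfl fun i _ => ?_
  have := Pool.Agent.H413R3.Part.coeff_pow_eq t (n + i)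
  unfold Pool.Agent.TH693.PP.P
  rw [this]
  rfl

lemma combOne_eq (t : ℕ) {L : ℕ} (c : Fin (L + 1) → ZMod 2) :
    combOne t c = fun n => ∑ _u : Unit, ∑ i : Fin (L + 1), c i * (multipartitions t (n + i) : ZMod 2) := by
  funext n
  exact (Fintype.sum_unique (fun _ : Unit =>
    ∑ i : Fin (L + 1), c i * (multipartitions t (n + i) : ZMod 2))).symm

theorem result :
    (∀ T L : ℕ, ∃ B : ℝ, 0 < B ∧ ∀ c : Fin T → Fin (L + 1) → ZMod 2, c ≠ 0 → ManyStates B (comb c)) ∧
    (∀ (T L : ℕ) (δ : ℝ), 0 < δ → ∃ a : ℝ, 0 < a ∧ ∃ N₁ : ℕ,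
      ∀ c : Fin T → Fin (L + 1) → ZMod 2, c ≠ 0 → ManyWords δ a N₁ (comb c)) ∧
    (∀ L : ℕ, ∃ B : ℝ, 0 < B ∧ ∀ t : ℕ, Odd t → ∀ c : Fin (L + 1) → ZMod 2, c ≠ 0 →
      ManyStates B (combOne t c)) ∧
    (∀ (L : ℕ) (δ : ℝ), 0 < δ → ∃ a : ℝ, 0 < a ∧ ∃ N₁ : ℕ, ∀ t : ℕ, Odd t →
      ∀ c : Fin (L + 1) → ZMod 2, c ≠ 0 → ManyWords δ a N₁ (combOne t c)) := by
  refine ⟨fun T L => ?_, fun T L δ hδ => ?_, fun L => ?_, fun L δ hδ => ?_⟩
  · obtain ⟨C, hC⟩ := pat_joint T
    obtain ⟨B, hB, h⟩ := pat_states C L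
    exact ⟨B, hB, fun c hc => h (Fin T) _ hC c hc⟩
  · obtain ⟨C, hC⟩ := pat_joint T
    obtain ⟨a, ha, N₁, h⟩ := pat_words C L hδ
    exact ⟨a, ha, N₁, fun c hc => h (Fin T) _ hC c hc⟩
  · obtain ⟨B, hB, h⟩ := pat_states 128 L
    refine ⟨B, hB, fun t ht c hc => ?_⟩
    rw [combOne_eq]
    exact h Unit _ (pat_odd t ht) (fun _ => c) (fun h0 => hc (congrFun h0 ()))
  · obtain ⟨a, ha, N₁, h⟩ := pat_words 128 L hδ
    refine ⟨a, ha, N₁, fun t ht c hc => ?_⟩
    rw [combOne_eq]
    exact h Unit _ (pat_odd t ht) (fun _ => c) (fun h0 => hc (congrFun h0 ()))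

end Pool.Agent.Results.MP_a3366f_nt.AutomataForCombinations
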