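import Mathlib
import Pool.Agent.X3.LinSeries2
import Pool.Agent.X3.LinNum2
import Pool.Agent.H413R3.Part.Pt
import Pool.Agent.TH915.UC.PAP

/-!
# Linear complexity of the `t`-multipartition function modulo `2`, `t = 2 ^ b + 1`

There is `c > 0` such that for all `b ≥ 1` and `N ≥ 2 (2 ^ b + 1) + 16` the values
`p_t(0), …, p_t(N)` modulo `2`, `t = 2 ^ b + 1`, satisfy no linear recurrence over the field with two
elements of an order less than `c N / (log N log log N) ^ 2`.
-/

set_option autoImplicit false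

open Filter

namespace Pool.Agent.Results.MP_a3366f_nt.LinearComplexity

/-- The number of `t`-multipartitions of `n`: the coefficient of `q ^ n` in the product of `t` copies
of the generating function of the partition function. -/
def multipartitions (t n : ℕ) : ℕ :=
  ∑ x ∈ Finset.Nat.antidiagonalTuple t n, ∏ i, Fintype.card (Nat.Partition (x i))

/-- The word `x 0, …, x N` satisfies a linear recurrence of order `L` with coefficients in `F`. -/
def Recurrent {F : Type} [Field F] (x : ℕ → F) (N L : ℕ) : Prop :=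
  ∃ c : Fin L → F, ∀ n, n + L ≤ N → x (n + L) = ∑ i : Fin L, c i * x (n + i)

/-- The number of the primes `p ≤ w` with `p ≡ 7` modulo `8`. -/
def primesSeven (w : ℕ) : ℕ := ((Finset.Icc 1 w).filter fun p => p.Prime ∧ p ≡ 7 [MOD 8]).card

open PowerSeries Pool.Agent.X3.LinSeries Pool.Agent.X3.LinMult in
theorem mul_G (b : ℕ) :
    ((PowerSeries.mk fun n => (Fintype.card (Nat.Partition n) : ZMod 2)) ^ (2 ^ b + 1)) * G b = 1 := by
  have h := Pool.Agent.H397R2.PP.mk_card_mul_pentagonalSeries (ZMod 2)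
  have h1 := Pool.Agent.H397R2.PP.pow_eq_expand b (pentagonalSeries (ZMod 2))
  unfold G
  rw [← h1, ← pow_succ', ← mul_pow, h, one_pow]

open PowerSeries Pool.Agent.X3.LinSeries Pool.Agent.X3.LinMult in
theorem main {b N L : ℕ} (hN : 2 * (2 ^ b + 1) ≤ N)
    (h : Recurrent (fun n => (multipartitions (2 ^ b + 1) n : ZMod 2)) N L) (hL : 51 * L ≤ N) :
    1 ≤ L ∧ 2 ^ primesSeven (Nat.sqrt (N / (L + 1))) ≤ L := by
  have h1 := dual (mul_G b) (N := N) (L := L) (by
    have e : (fun n => coeff n ((PowerSeries.mk fun n =>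
        (Fintype.card (Nat.Partition n) : ZMod 2)) ^ (2 ^ b + 1))) =
        fun n => (multipartitions (2 ^ b + 1) n : ZMod 2) := by
      funext n
      exact Pool.Agent.H413R3.Part.coeff_pow_eq (2 ^ b + 1) n
    rw [e]
    exact h)
  refine ⟨h1.1, ?_⟩
  apply G_main h1.2
  -- a nonzero coefficient
  choose g hg1 hg2 using G_one b
  have hg0 : g 0 = 0 := by have := hg1 0; omega
  have hg3 : g 1 = 2 := by have := hg1 1; omega
  have hgs : ∀ i, g (i + 1) = 49 * g i + 2 := by
    intro i
    have a1 := hg1 i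
    have a2 := hg1 (i + 1)
    rw [pow_succ] at a2
    omega
  have hex : ∃ i, N < (1 + 2 ^ b) * g i := by
    have hge : ∀ i, i ≤ g i := by
      intro i
      induction i with
      | zero => omega
      | succ i ih => rw [hgs]; omega
    refine ⟨N + 1, ?_⟩
    have := hge (N + 1)
    have h2 : g (N + 1) ≤ (1 + 2 ^ b) * g (N + 1) := Nat.le_mul_of_pos_left _ (by positivity)
    exact lt_of_lt_of_le (by omega) h2
  obtain ⟨i, hi⟩ : ∃ i, i = Nat.find hex := ⟨_, rfl⟩
  have hi1 : N < (1 + 2 ^ b) * g i := by rw [hi]; exact Nat.find_spec hex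
  have hi2 : 2 ≤ i := by
    by_contra hcon
    have : i = 0 ∨ i = 1 := by omega
    rcases this with h2 | h2
    · rw [h2, hg0] at hi1
      omega
    · rw [h2, hg3] at hi1
      omega
  obtain ⟨j, hj⟩ : ∃ j, i = j + 1 := ⟨i - 1, by omega⟩
  have hj1 : (1 + 2 ^ b) * g j ≤ N := by
    have := Nat.find_min hex (m := j) (by omega)
    omega
  have hgj : 2 ≤ g j := by
    obtain ⟨l, hl⟩ : ∃ l, j = l + 1 := ⟨j - 1, by omega⟩
    rw [hl, hgs]
    omega
  refine ⟨(1 + 2 ^ b) * g j, ?_, hj1, ?_⟩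
  · rw [hj, hgs] at hi1
    have h2 : (1 + 2 ^ b) * (49 * g j + 2) ≤ 51 * ((1 + 2 ^ b) * g j) - (1 + 2 ^ b) * 2 := by
      have h3 : (1 + 2 ^ b) * 2 ≤ (1 + 2 ^ b) * g j := Nat.mul_le_mul_left _ hgj
      have h4 : (1 + 2 ^ b) * (49 * g j + 2) = 49 * ((1 + 2 ^ b) * g j) + (1 + 2 ^ b) * 2 := by ring
      omega
    omega
  · rw [hg2]
    exact one_ne_zero

/-- (1) If `N ≥ 2 t`, `t = 2 ^ b + 1`, and `p_t(0), …, p_t(N)` satisfy modulo `2` a linear recurrence
of order `L ≤ N / 51`, then `2 ^ m ≤ L`, where `m` is the number of the primes `p ≡ 7` modulo `8`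
with `p ^ 2 ≤ N / (L + 1)`.

(2) There is `c > 0` such that for all `b` and all `N ≥ 2 t + 16`, `t = 2 ^ b + 1`: if
`p_t(0), …, p_t(N)` satisfy modulo `2` a linear recurrence of order `L`, then
`L ≥ c N / (log N log log N) ^ 2`. -/
theorem result :
    (∀ b N L : ℕ, 2 * (2 ^ b + 1) ≤ N →
      Recurrent (fun n => (multipartitions (2 ^ b + 1) n : ZMod 2)) N L → 51 * L ≤ N →
      2 ^ primesSeven (Nat.sqrt (N / (L + 1))) ≤ L) ∧
    (∃ c : ℝ, 0 < c ∧ ∀ b N L : ℕ, 2 * (2 ^ b + 1) + 16 ≤ N →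
      Recurrent (fun n => (multipartitions (2 ^ b + 1) n : ZMod 2)) N L →
      c * (N : ℝ) / (Real.log N * Real.log (Real.log N)) ^ 2 ≤ L) := by
  refine ⟨fun b N L hN h hL => (main hN h hL).2, ?_⟩
  have hφ : (1 : ℝ) ≤ (8 : ℕ).totient := by
    have : 1 ≤ (8 : ℕ).totient := Nat.totient_pos.2 (by norm_num)
    exact_mod_cast this
  have hcnt : ∀ᶠ y : ℕ in atTop, (y : ℝ) / ((2 * (8 : ℕ).totient : ℝ) * Real.log y) ≤
      primesSeven y := by
    have h1 := Pool.Agent.TH915.UC.primes_ap_lower 8 7 (by omega) (by norm_num)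
    have h2 := tendsto_natCast_atTop_atTop (R := ℝ) |>.eventually h1
    filter_upwards [h2] with y hy
    rw [Nat.floor_natCast] at hy
    exact hy
  obtain ⟨c, hc, hnum⟩ := Pool.Agent.X3.LinMult.num_sq (D := 2 * (8 : ℕ).totient) (by linarith) hcnt
  refine ⟨min c (1 / 51), lt_min hc (by norm_num), ?_⟩
  intro b N L hN h
  have hN16 : 16 ≤ N := by omega
  have hNR : (16 : ℝ) ≤ N := by exact_mod_cast hN16
  have hlog : 2.77 ≤ Real.log N := by
    have h1 : Real.log 16 ≤ Real.log N := Real.log_le_log (by norm_num) hNR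
    have h2 : Real.log 16 = 4 * Real.log 2 := by
      rw [show (16 : ℝ) = 2 ^ 4 by norm_num, Real.log_pow]; norm_num
    have := Real.log_two_gt_d9
    linarith
  have hll : 1 ≤ Real.log (Real.log N) := by
    have h1 : Real.log (Real.exp 1) ≤ Real.log (Real.log N) := by
      apply Real.log_le_log (Real.exp_pos _)
      have := Real.exp_one_lt_d9
      linarith
    rwa [Real.log_exp] at h1
  have hprod : 1 ≤ Real.log N * Real.log (Real.log N) := by nlinarith
  have hprod2 : 1 ≤ (Real.log N * Real.log (Real.log N)) ^ 2 := one_le_pow₀ hprod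
  rcases Nat.lt_or_ge N (51 * L) with hL | hL
  · have hLR : (N : ℝ) ≤ 51 * L := by exact_mod_cast hL.le
    refine le_trans (div_le_self (by positivity) hprod2) ?_
    have : min c (1 / 51) * (N : ℝ) ≤ 1 / 51 * N :=
      mul_le_mul_of_nonneg_right (min_le_right _ _) (by linarith)
    linarith
  · obtain ⟨h1, h2⟩ := main (by omega) h hL
    refine le_trans ?_ (hnum N L hN16 h1 (by omega) h2)
    apply div_le_div_of_nonneg_right _ (by positivity)
    exact mul_le_mul_of_nonneg_right (min_le_left _ _) (by linarith)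

end Pool.Agent.Results.MP_a3366f_nt.LinearComplexity
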