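import Mathlib
import Pool.Agent.X149.PP.Main3
import Pool.Agent.X149.PP.Exist

set_option autoImplicit false

namespace Pool.Agent.Results.MP_a3366f_nt.RandomlyDeletedParts

open MeasureTheory ProbabilityTheory Filter

/-- `p D n`: the number of partitions of `n` with no part in `D`. -/
noncomputable def p (D : Set ℕ) (n : ℕ) : ℕ :=
  Nat.card {π : n.Partition // ∀ i ∈ π.parts, i ∉ D}

/-- `pt t D n`: the coefficient of `q^n` in the `t`-th power of the series of the `p D k`, the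
number of `t`-tuples of partitions with no part in `D` and total size `n`. -/
noncomputable def pt (t : ℕ) (D : Set ℕ) (n : ℕ) : ℤ :=
  PowerSeries.coeff n ((PowerSeries.mk fun k => (p D k : ℤ)) ^ t)

open Classical in
/-- `cf f D n`: the coefficient of `q^n` in the product of `f` and all `1 - q^m`, `m ∈ D`,
`m ≥ 1` (the factors with `m > n` do not matter). -/
noncomputable def cf (f : PowerSeries ℤ) (D : Set ℕ) (n : ℕ) : ℤ :=
  PowerSeries.coeff n (f * ∏ m ∈ (Finset.Icc 1 n).filter (· ∈ D), (1 - PowerSeries.X ^ m))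

/-- All patterns of parities of `a` have the expected frequency along `ν`, with error exponent
`α`. -/
def Normal (α : ℝ) (a : ℕ → ℤ) (ν : ℕ → ℕ) : Prop :=
  ∀ H O : Finset ℕ, ∃ C : ℝ, ∀ K : ℕ,
    |(Nat.card {k : ℕ // k < K ∧ ∀ h ∈ H, (Odd (a (ν k + h)) ↔ h ∈ O)} : ℝ) -
      (K : ℝ) / 2 ^ H.card| ≤ C * ((K : ℝ) + 1) ^ α

lemma pt_eq (t : ℕ) (D : Set ℕ) (n : ℕ) : pt t D n = (Pool.Agent.X149.PP.pt t D n : ℤ) := by
  unfold pt Pool.Agent.X149.PP.pt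
  have h1 : (PowerSeries.mk fun k => (p D k : ℤ)) =
      PowerSeries.map (Nat.castRingHom ℤ) (Pool.Agent.X149.PP.G ℕ D) := by
    ext k
    unfold Pool.Agent.X149.PP.G
    simp
    rfl
  rw [h1, ← map_pow, PowerSeries.coeff_map]
  rfl

/-- All the sequences are normal along `ν`, for `D` and for all its finite modifications. -/
def All (α : ℝ) (f : ℕ → PowerSeries ℤ) (D : Set ℕ) (ν : ℕ → ℕ) : Prop :=
  ∀ D' : Set ℕ, (symmDiff D' D).Finite →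
    (∀ t : ℕ, Odd t → Normal α (pt t D') ν) ∧ ∀ j : ℕ, Normal α (cf (f j) D') ν

theorem random {θ : ℝ} (hθ0 : 0 ≤ θ) (hθ : θ < 1) : ∃ α : ℝ, 0 < α ∧ α < 1 ∧
    ∀ (Ω : Type) (_ : MeasurableSpace Ω) (P : Measure Ω) (_ : IsProbabilityMeasure P)
      (D : Ω → Set ℕ), (∀ m, MeasurableSet {ω | m ∈ D ω}) →
      iIndepSet (fun m => {ω | m ∈ D ω}) P →
      (∀ m : ℕ, 1 ≤ m → (m : ℝ) ^ (-θ) / 2 ≤ P.real {ω | m ∈ D ω} ∧
        P.real {ω | m ∈ D ω} ≤ 1 / 2) →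
      ∀ f : ℕ → PowerSeries ℤ, (∀ j, Odd (PowerSeries.coeff 0 (f j))) →
      ∀ ν : ℕ → ℕ, StrictMono ν → ∀ᵐ ω ∂P, All α f (D ω) ν := by
  obtain ⟨α, hα0, hα1, h⟩ := Pool.Agent.X149.PP.main_t3.{0} hθ0 hθ
  refine ⟨α, hα0, hα1, fun Ω _ P _ D hm hi hp f hf ν hν => ?_⟩
  have h0 := h Ω P D ⟨hm, hi, hp⟩ ν hν
  have h2 : ∀ᵐ ω ∂P, ∀ j : ℕ, ∀ D' : Set ℕ, (symmDiff D' (D ω)).Finite →
      Normal α (cf (f j) D') ν := by
    rw [ae_all_iff]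
    intro j
    filter_upwards [h0.2 (f j) (hf j)] with ω hω
    intro D' hD'
    exact hω D' hD'
  filter_upwards [h0.1, h2] with ω hω hω2
  intro D' hD'
  refine ⟨fun t ht => ?_, fun j => hω2 j D' hD'⟩
  have h3 : pt t D' = fun n => (Pool.Agent.X149.PP.pt t D' n : ℤ) := funext fun n => pt_eq t D' n
  rw [h3]
  exact hω D' hD' t ht

theorem result :
    (∀ θ : ℝ, 0 ≤ θ → θ < 1 → ∃ α : ℝ, 0 < α ∧ α < 1 ∧
      ∀ (Ω : Type) (_ : MeasurableSpace Ω) (P : Measure Ω) (_ : IsProbabilityMeasure P)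
      (D : Ω → Set ℕ), (∀ m, MeasurableSet {ω | m ∈ D ω}) →
      iIndepSet (fun m => {ω | m ∈ D ω}) P →
      (∀ m : ℕ, 1 ≤ m → (m : ℝ) ^ (-θ) / 2 ≤ P.real {ω | m ∈ D ω} ∧
        P.real {ω | m ∈ D ω} ≤ 1 / 2) →
      ∀ f : ℕ → PowerSeries ℤ, (∀ j, Odd (PowerSeries.coeff 0 (f j))) →
      ∀ ν : ℕ → ℕ, StrictMono ν → ∀ᵐ ω ∂P, All α f (D ω) ν) ∧
    (∀ ε : ℝ, 0 < ε → ∃ α : ℝ, 0 < α ∧ α < 1 ∧
      ∀ f : ℕ → PowerSeries ℤ, (∀ j, Odd (PowerSeries.coeff 0 (f j))) →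
      ∀ ν : ℕ → ℕ → ℕ, (∀ i, StrictMono (ν i)) → ∃ D : Set ℕ, (∃ C : ℝ, ∀ N : ℕ,
        (Nat.card {m : ℕ // m ∈ D ∧ 1 ≤ m ∧ m ≤ N} : ℝ) ≤ C * (N : ℝ) ^ ε) ∧
        ∀ i, All α f D (ν i)) := by
  constructor
  · intro θ hθ0 hθ
    exact random hθ0 hθ
  · intro ε hε
    obtain ⟨θ, hθ0, hθ, hθε⟩ : ∃ θ : ℝ, 0 ≤ θ ∧ θ < 1 ∧ 1 - θ < ε := by
      refine ⟨max 0 (1 - ε / 2), le_max_left _ _, ?_, ?_⟩
      · rw [max_lt_iff]; constructor <;> linarith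
      · have := le_max_right 0 (1 - ε / 2); linarith
    obtain ⟨α, hα0, hα1, hα⟩ := random hθ0 hθ
    refine ⟨α, hα0, hα1, fun f hf ν hν => ?_⟩
    obtain ⟨D, hD, hC⟩ := Pool.Agent.X149.PP.exists_sparse
      (Q := fun D => ∀ i, All α f D (ν i))
      hθ0 hθ (fun Ω mΩ P hP D hDm hDi hδ => by
        rw [ae_all_iff]
        exact fun i => hα Ω mΩ P hP D hDm hDi hδ f hf (ν i) (hν i)) hθε
    exact ⟨D, hC, hD⟩

end Pool.Agent.Results.MP_a3366f_nt.RandomlyDeletedParts
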